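import Pool.Agent.Lib.P22c7c2.Basic

/-!
# An absolutely H-closed topological semilattice which is not chain-complete

The semilattice consists of all functions `y : ℕ → ℕ∞` that are infinite exactly on a finite
initial segment `{i | i < k}` of `ℕ`, with the pointwise maximum as operation.  A basic
neighbourhood of a point `x` that is infinite exactly on `{i | i < k}` consists of all `z` with
`J ≤ z (k - 1)` (if `k ≥ 1`) and `z i = x i` for `k ≤ i < n`.
-/

set_option autoImplicit false

universe u

/-- There is an absolutely H-closed Hausdorff topological semilattice with a nonempty chain that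
has no lower bound, hence no infimum. -/
theorem Pool.Agent.Results.MP_22c7c2_gt.NotChainComplete.result :
    ∃ (X : Type) (_ : TopologicalSpace X) (_ : CommSemigroup X),
      T2Space X ∧ ContinuousMul X ∧ (∀ x : X, x * x = x) ∧
      (∀ (Y : Type u) [TopologicalSpace Y] [T2Space Y] [Semigroup Y] [ContinuousMul Y]
        (h : X →ₙ* Y), Continuous h → IsClosed (Set.range h)) ∧
      ∃ C : Set X, C.Nonempty ∧ (∀ a ∈ C, ∀ b ∈ C, a * b = a ∨ b * a = b) ∧
        ¬ ∃ m : X, ∀ a ∈ C, m * a = m := by
  refine ⟨Pool.Agent.Lib.P22c7c2.Xh, inferInstance, inferInstance, inferInstance,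
    inferInstance, Pool.Agent.Lib.P22c7c2.mul_self, ?_, ?_⟩
  · intro Y _ _ _ _ h hc
    exact Pool.Agent.Lib.P22c7c2.isClosed_range h hc
  · refine ⟨Set.range Pool.Agent.Lib.P22c7c2.c, ⟨_, 0, rfl⟩, ?_, ?_⟩
    · have key : ∀ k l : ℕ, k ≤ l →
          Pool.Agent.Lib.P22c7c2.c l * Pool.Agent.Lib.P22c7c2.c k =
            Pool.Agent.Lib.P22c7c2.c l := by
        intro k l hkl
        apply Pool.Agent.Lib.P22c7c2.Xh.ext
        funext i
        rw [Pool.Agent.Lib.P22c7c2.mul_val, Pool.Agent.Lib.P22c7c2.c_val,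
          Pool.Agent.Lib.P22c7c2.c_val]
        by_cases h : i < k
        · rw [if_pos h, if_pos (lt_of_lt_of_le h hkl)]
          exact max_self _
        · rw [if_neg h]
          exact max_eq_left bot_le
      rintro _ ⟨k, rfl⟩ _ ⟨l, rfl⟩
      rcases le_total k l with h | h
      · exact Or.inr (key k l h)
      · exact Or.inl (key l k h)
    · rintro ⟨m, hm⟩
      have h1 := hm _ ⟨Pool.Agent.Lib.P22c7c2.lev m + 1, rfl⟩
      have h2 : (m * Pool.Agent.Lib.P22c7c2.c (Pool.Agent.Lib.P22c7c2.lev m + 1)).val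
          (Pool.Agent.Lib.P22c7c2.lev m) = ⊤ := by
        rw [Pool.Agent.Lib.P22c7c2.mul_val, Pool.Agent.Lib.P22c7c2.c_val,
          if_pos (Nat.lt_succ_self _)]
        exact max_eq_right le_top
      rw [h1] at h2
      exact absurd ((Pool.Agent.Lib.P22c7c2.lev_spec m _).1 h2) (lt_irrefl _)
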